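import Pool.Agent.Helper51.PP.Spec

set_option autoImplicit false

namespace Pool.Agent.Helper10.PC.CH1

open Pool.Agent.Helper51.PP
open scoped BigOperators

variable {X E : Type} [Fintype E] {nx : X → E → X} {rev : E → E}

/-- the step in direction `e` as a bijection -/
def eqv (h : RevChain nx rev) (e : E) : X ≃ X where
  toFun y := nx y e
  invFun z := nx z (rev e)
  left_inv y := h.back y e
  right_inv z := by
    have := h.back z (rev e)
    rwa [h.inv] at this

/-- the reversal of directions as a bijection -/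
def rv (h : RevChain nx rev) : E ≃ E where
  toFun := rev
  invFun := rev
  left_inv := h.inv
  right_inv := h.inv

theorem fin_comp (h : RevChain nx rev) (e : E) {u : X → ℝ} (hu : (Function.support u).Finite) :
    (Function.support fun y => u (nx y e)).Finite := by
  have : (Function.support fun y => u (nx y e)) = (eqv h e) ⁻¹' (Function.support u) := rfl
  rw [this]
  exact hu.preimage (eqv h e).injective.injOn

theorem fin_PR (h : RevChain nx rev) {u : X → ℝ} (hu : (Function.support u).Finite) :
    (Function.support (PR nx u)).Finite := by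
  refine (Set.finite_iUnion fun e => fin_comp h e hu).subset ?_
  intro y hy
  by_contra hc
  simp only [Set.mem_iUnion, Function.mem_support, not_exists, not_not] at hc
  apply hy
  unfold PR
  rw [Finset.sum_eq_zero fun e _ => hc e, mul_zero]

theorem tsum_comp (h : RevChain nx rev) (e : E) (g : X → ℝ) :
    ∑' y, g (nx y e) = ∑' y, g y := (eqv h e).tsum_eq g

theorem tsum_PR [Nonempty E] (h : RevChain nx rev) {u : X → ℝ}
    (hu : (Function.support u).Finite) : ∑' y, PR nx u y = ∑' y, u y := by
  unfold PR
  rw [tsum_mul_left,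
    Summable.tsum_finsetSum fun e _ => summable_of_finite_support (fin_comp h e hu)]
  simp only [tsum_comp h]
  rw [Finset.sum_const, Finset.card_univ, nsmul_eq_mul]
  field_simp

theorem PRn_comm (nx : X → E → X) (f : X → ℝ) :
    ∀ n, PRn nx (PR nx f) n = PR nx (PRn nx f n)
  | 0 => rfl
  | n + 1 => by
    simp only [PRn]
    rw [PRn_comm nx f n]

theorem selfadj (h : RevChain nx rev) {p : X → ℝ} (hp : (Function.support p).Finite)
    (f : X → ℝ) : ∑' y, p y * PR nx f y = ∑' y, PR nx p y * f y := by
  have e1 : ∀ y, p y * PR nx f y = (Fintype.card E : ℝ)⁻¹ * ∑ e, p y * f (nx y e) := by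
    intro y
    unfold PR
    rw [← Finset.mul_sum]
    ring
  have e2 : ∀ y, PR nx p y * f y = (Fintype.card E : ℝ)⁻¹ * ∑ e, p (nx y e) * f y := by
    intro y
    unfold PR
    rw [← Finset.sum_mul]
    ring
  simp only [e1, e2]
  rw [tsum_mul_left, tsum_mul_left, Summable.tsum_finsetSum, Summable.tsum_finsetSum]
  · congr 1
    rw [← Equiv.sum_comp (rv h)]
    refine Finset.sum_congr rfl fun e _ => ?_
    have := tsum_comp h (rev e) (fun z => p (nx z e) * f z)
    rw [← this]
    refine tsum_congr fun y => ?_
    change p y * f (nx y (rev e)) = p (nx (nx y (rev e)) e) * f (nx y (rev e))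
    have hb := h.back y (rev e)
    rw [h.inv] at hb
    rw [hb]
  · intro e _
    exact summable_of_finite_support ((fin_comp h e hp).subset fun y hy => by
      simp only [Function.mem_support] at hy ⊢
      exact left_ne_zero_of_mul hy)
  · intro e _
    exact summable_of_finite_support (hp.subset fun y hy => by
      simp only [Function.mem_support] at hy ⊢
      exact left_ne_zero_of_mul hy)

theorem pk_succ (x0 : X) (n : ℕ) : pk nx x0 (n + 1) = PR nx (pk nx x0 n) := rfl

theorem pk_fin (h : RevChain nx rev) (x0 : X) : ∀ n, (Function.support (pk nx x0 n)).Finite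
  | 0 => by
    refine (Set.finite_singleton x0).subset fun y hy => ?_
    by_contra hc
    apply hy
    simp only [Set.mem_singleton_iff] at hc
    simp [pk, PRn, hc]
  | n + 1 => by
    rw [pk_succ]
    exact fin_PR h (pk_fin h x0 n)

theorem pk_nonneg (x0 : X) : ∀ n y, 0 ≤ pk nx x0 n y
  | 0, y => by
    simp only [pk, PRn]
    split_ifs <;> norm_num
  | n + 1, y => by
    rw [pk_succ]
    unfold PR
    exact mul_nonneg (by positivity) (Finset.sum_nonneg fun e _ => pk_nonneg x0 n _)

theorem pk_zero (x0 : X) (f : X → ℝ) : ∑' y, pk nx x0 0 y * f y = f x0 := by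
  rw [tsum_eq_single x0]
  · simp [pk, PRn]
  · intro y hy
    simp [pk, PRn, hy]

theorem pk_sum [Nonempty E] (h : RevChain nx rev) (x0 : X) : ∀ n, ∑' y, pk nx x0 n y = 1
  | 0 => by
    have := pk_zero (nx := nx) x0 (fun _ => 1)
    simpa using this
  | n + 1 => by
    rw [pk_succ, tsum_PR h (pk_fin h x0 n)]
    exact pk_sum h x0 n

theorem PRn_eq (h : RevChain nx rev) (x0 : X) :
    ∀ (n : ℕ) (f : X → ℝ), PRn nx f n x0 = ∑' y, pk nx x0 n y * f y
  | 0, f => (pk_zero x0 f).symm
  | n + 1, f => by
    have h1 : PRn nx f (n + 1) = PRn nx (PR nx f) n := (PRn_comm nx f n).symm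
    rw [h1, PRn_eq h x0 n (PR nx f), selfadj h (pk_fin h x0 n), pk_succ]

theorem pk_reach (h : RevChain nx rev) (x0 : X) : ∀ n y, pk nx x0 n y ≠ 0 → Reach nx x0 y
  | 0, y, hy => by
    by_cases hc : y = x0
    · rw [hc]; exact Reach.refl
    · exact absurd (by simp [pk, PRn, hc]) hy
  | n + 1, y, hy => by
    rw [pk_succ] at hy
    have : ∃ e, pk nx x0 n (nx y e) ≠ 0 := by
      by_contra hc
      push Not at hc
      apply hy
      unfold PR
      rw [Finset.sum_eq_zero fun e _ => hc e, mul_zero]
    obtain ⟨e, he⟩ := this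
    have h1 := Reach.step _ (rev e) (pk_reach h x0 n _ he)
    rwa [h.back] at h1

open Classical in
theorem pk_symm (h : RevChain nx rev) (x0 : X) (n : ℕ) (y : X) :
    pk nx x0 n y = pk nx y n x0 := by
  have := PRn_eq h x0 n (fun z => if z = y then 1 else 0)
  have h2 : pk nx y n x0 = PRn nx (fun z => if z = y then (1 : ℝ) else 0) n x0 := rfl
  rw [h2, this, tsum_eq_single y]
  · simp
  · intro z hz
    simp [hz]

theorem main : S_CH1 := by
  intro X E _ _ nx rev h x0 n
  exact ⟨pk_nonneg x0 n, pk_fin h x0 n, pk_sum h x0 n, PRn_eq h x0 n, pk_reach h x0 n,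
    pk_symm h x0 n⟩

end Pool.Agent.Helper10.PC.CH1
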