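import Pool.Agent.Helper10.PC.CH1

set_option autoImplicit false

namespace Pool.Agent.Helper10.PC.CH2

open Pool.Agent.Helper51.PP Pool.Agent.Helper10.PC.CH1
open scoped BigOperators

variable {X E : Type} [Fintype E] {nx : X → E → X} {rev : E → E}

/-- the difference terms -/
noncomputable def FF (nx : X → E → X) (u : X → ℝ) (e e' : E) : ℝ :=
  ∑' y, (u (nx y e) - u (nx y e')) ^ 2

theorem FF_nonneg (u : X → ℝ) (e e' : E) : 0 ≤ FF nx u e e' :=
  tsum_nonneg fun _ => sq_nonneg _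

theorem FF_rev (h : RevChain nx rev) (u : X → ℝ) (e : E) :
    FF nx u e (rev e) = ∑' y, (u (nx (nx y e) e) - u y) ^ 2 := by
  unfold FF
  rw [← tsum_comp h e]
  refine tsum_congr fun y => ?_
  rw [h.back]

theorem energy [Nonempty E] (h : RevChain nx rev) {u : X → ℝ}
    (hu : (Function.support u).Finite) :
    ∑' y, (PR nx u y) ^ 2 = ∑' y, (u y) ^ 2 -
      (2 * (Fintype.card E : ℝ) ^ 2)⁻¹ * ∑ e, ∑ e', FF nx u e e' := by
  have hN : (Fintype.card E : ℝ) ≠ 0 := by positivity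
  have fs : ∀ e : E, (Function.support fun y => u (nx y e) ^ 2).Finite := fun e =>
    (fin_comp h e hu).subset fun y hy => by
      simp only [Function.mem_support] at hy ⊢
      exact fun h0 => hy (by rw [h0]; norm_num)
  have fd : ∀ e e' : E, (Function.support fun y => (u (nx y e) - u (nx y e')) ^ 2).Finite :=
    fun e e' => ((fin_comp h e hu).union (fin_comp h e' hu)).subset fun y hy => by
      simp only [Function.mem_support, Set.mem_union] at hy ⊢
      by_contra hc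
      push Not at hc
      exact hy (by rw [hc.1, hc.2]; norm_num)
  have key : ∀ y, (PR nx u y) ^ 2 = ∑ e : E, ∑ e' : E,
      (((Fintype.card E : ℝ) ^ 2)⁻¹ * (1 / 2) * u (nx y e) ^ 2 +
        ((Fintype.card E : ℝ) ^ 2)⁻¹ * (1 / 2) * u (nx y e') ^ 2 -
        (2 * (Fintype.card E : ℝ) ^ 2)⁻¹ * (u (nx y e) - u (nx y e')) ^ 2) := by
    intro y
    unfold PR
    rw [mul_pow, sq (∑ e, u (nx y e)), Finset.sum_mul_sum, Finset.mul_sum]
    refine Finset.sum_congr rfl fun e _ => ?_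
    rw [Finset.mul_sum]
    refine Finset.sum_congr rfl fun e' _ => ?_
    field_simp
    ring
  simp only [key]
  have s1 : ∀ e : E, Summable fun y => u (nx y e) ^ 2 := fun e => summable_of_finite_support (fs e)
  have s2 : ∀ e e' : E, Summable fun y => (u (nx y e) - u (nx y e')) ^ 2 := fun e e' =>
    summable_of_finite_support (fd e e')
  have s3 : ∀ e e' : E, Summable fun y =>
      (((Fintype.card E : ℝ) ^ 2)⁻¹ * (1 / 2) * u (nx y e) ^ 2 +
        ((Fintype.card E : ℝ) ^ 2)⁻¹ * (1 / 2) * u (nx y e') ^ 2 -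
        (2 * (Fintype.card E : ℝ) ^ 2)⁻¹ * (u (nx y e) - u (nx y e')) ^ 2) := fun e e' =>
    (((s1 e).mul_left _).add ((s1 e').mul_left _)).sub ((s2 e e').mul_left _)
  rw [Summable.tsum_finsetSum fun e _ => summable_sum fun e' _ => s3 e e']
  have t1 : ∀ e : E, ∑' y, ∑ e' : E,
      (((Fintype.card E : ℝ) ^ 2)⁻¹ * (1 / 2) * u (nx y e) ^ 2 +
        ((Fintype.card E : ℝ) ^ 2)⁻¹ * (1 / 2) * u (nx y e') ^ 2 -
        (2 * (Fintype.card E : ℝ) ^ 2)⁻¹ * (u (nx y e) - u (nx y e')) ^ 2) =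
      ∑ e' : E, (((Fintype.card E : ℝ) ^ 2)⁻¹ * ∑' y, u y ^ 2 -
        (2 * (Fintype.card E : ℝ) ^ 2)⁻¹ * FF nx u e e') := by
    intro e
    rw [Summable.tsum_finsetSum fun e' _ => s3 e e']
    refine Finset.sum_congr rfl fun e' _ => ?_
    rw [Summable.tsum_sub (((s1 e).mul_left _).add ((s1 e').mul_left _)) ((s2 e e').mul_left _),
      Summable.tsum_add ((s1 e).mul_left _) ((s1 e').mul_left _), tsum_mul_left, tsum_mul_left,
      tsum_mul_left, tsum_comp h e (fun z => u z ^ 2), tsum_comp h e' (fun z => u z ^ 2)]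
    unfold FF
    ring
  simp only [t1]
  simp only [Finset.sum_sub_distrib, Finset.sum_const, Finset.card_univ, nsmul_eq_mul,
    ← Finset.mul_sum]
  field_simp

theorem main : S_CH2 := by
  intro X E _ _ nx rev h u hu
  refine ⟨fin_PR h hu, ?_⟩
  rw [energy h hu]
  have h1 : ∑ e, ∑' y, (u (nx (nx y e) e) - u y) ^ 2 ≤ ∑ e, ∑ e', FF nx u e e' := by
    refine Finset.sum_le_sum fun e _ => ?_
    rw [← FF_rev h u e]
    exact Finset.single_le_sum (f := fun e' => FF nx u e e') (fun e' _ => FF_nonneg u e e')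
      (Finset.mem_univ (rev e))
  have h2 : (2 * (Fintype.card E : ℝ) ^ 2)⁻¹ * ∑ e, ∑' y, (u (nx (nx y e) e) - u y) ^ 2 ≤
      (2 * (Fintype.card E : ℝ) ^ 2)⁻¹ * ∑ e, ∑ e', FF nx u e e' :=
    mul_le_mul_of_nonneg_left h1 (by positivity)
  linarith

end Pool.Agent.Helper10.PC.CH2
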